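import Pool.Agent.R580.Orb.Main

/-!
# Kimura finite-dimensionality descends from noncommutative to commutative motives: the theorem
-/

set_option autoImplicit false
set_option linter.unusedSectionVars false
set_option linter.unusedSimpArgs false

open CategoryTheory Limits MonoidalCategory
open Pool.Agent.Y112.SR Pool.Agent.Y112.KD Pool.Agent.R905
open Pool.Agent.Y116.MT (tr)
open Pool.Agent.TH829.Kim (InRad Killed isNilpotent_of_inRad exists_lift)

namespace Pool.Agent.R580.Orb

universe v₁ u₁ v₂ u₂ w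

section

variable {D : Type u₂} [Category.{v₂} D] [Preadditive D] [Linear ℚ D] [MonoidalCategory D]
  [MonoidalPreadditive D] [MonoidalLinear ℚ D] [SymmetricCategory D]
  [RightRigidCategory D] [IsIdempotentComplete D] {K : Type w} [Field K]
  (R : SuperRealisation D K)

include R in
/-- Numerically trivial endomorphisms of Kimura finite objects are nilpotent. -/
lemma nilpotent_of_inRad (hU : UnitQ D) {M : D} {E O : D} (i : E ⟶ M) (r : M ⟶ E) (i' : O ⟶ M)
    (r' : M ⟶ O) (h1 : i ≫ r = 𝟙 E) (h5 : r ≫ i + r' ≫ i' = 𝟙 M) {n m : ℕ}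
    (hn : asym (-1) E n = 0) (hm : asym 1 O m = 0) (x : End M) (hr : InRad (trq hU M) x) :
    IsNilpotent x := by
  have h6 : 1 - en (r ≫ i) = en (r' ≫ i') := by
    have h7 : (1 : End M) = en (r ≫ i) + en (r' ≫ i') := h5.symm
    rw [h7]
    exact add_sub_cancel_left _ _
  have hk1 := killed hU (η := (-1 : ℚ)) (by norm_num) i r n (asym_mono (by norm_num) E hn)
    (en (r ≫ i)) rfl
  have hk2 := killed hU (η := (1 : ℚ)) (by norm_num) i' r' m (asym_mono (by norm_num) O hm)
    (en (r' ≫ i')) rfl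
  rw [← h6] at hk2
  refine isNilpotent_of_inRad (tr := trq hU M) ?_ ?_ hk1 hk2 hr
  · intro a b
    rw [End.mul_def, End.mul_def]
    exact trq_comm' R hU _ _
  · rw [End.mul_def]
    change (r ≫ i) ≫ r ≫ i = r ≫ i
    rw [Category.assoc, reassoc_of% h1]

variable {C : Type u₁} [Category.{v₁} C] [Preadditive C] [Linear ℚ C] [MonoidalCategory C]
  [MonoidalPreadditive C] [MonoidalLinear ℚ C] [SymmetricCategory C]
  (π : C ⥤ D) [π.Braided] [π.Additive] [π.Linear ℚ] [π.Faithful]

include R in
/-- The descent of the even projector. -/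
theorem exists_descent (hU : UnitQ D) {M : C}
    {A : ℤ → Submodule ℚ (π.obj M ⟶ π.obj M)} (hA : IsGrading A)
    (h0 : ∀ f ∈ A 0, ∃ g : M ⟶ M, π.map g = f) (p : π.obj M ⟶ π.obj M) (hpp : p ≫ p = p)
    (hev : ∃ n, PowerVanishes (-1) p n) (hod : ∃ m, PowerVanishes 1 (𝟙 (π.obj M) - p) m) :
    ∃ (e : M ⟶ M) (u : π.obj M ≅ π.obj M), e ≫ e = e ∧ (∃ n, PowerVanishes (-1) e n) ∧
      (∃ m, PowerVanishes 1 (𝟙 M - e) m) ∧ u.hom ≫ p = π.map e ≫ u.hom := by
  obtain ⟨n, hn'⟩ := hev
  obtain ⟨m, hm'⟩ := hod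
  have hpp' : (𝟙 (π.obj M) - p) ≫ (𝟙 (π.obj M) - p) = 𝟙 (π.obj M) - p := by
    rw [Preadditive.sub_comp, Preadditive.comp_sub, Preadditive.comp_sub, hpp]
    simp
  obtain ⟨E, i, r, h1, h2⟩ := IsIdempotentComplete.idempotents_split _ p hpp
  obtain ⟨O, i', r', h3, h4⟩ := IsIdempotentComplete.idempotents_split _ _ hpp'
  have h5 : r ≫ i + r' ≫ i' = 𝟙 (π.obj M) := by rw [h2, h4]; abel
  have hn : asym (-1) E n = 0 := (powerVanishes_iff (by norm_num) i r h1 h2 n).1 hn'
  have hm : asym 1 O m = 0 := (powerVanishes_iff (by norm_num) i' r' h3 h4 m).1 hm'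
  obtain ⟨h6, h7⟩ := map_proj R i r i' r' hn hm
  have hnil := nilpotent_of_inRad R hU i r i' r' h1 h5 hn hm
  have hsym : ∀ a b : End (π.obj M), trq hU (π.obj M) (a * b) = trq hU (π.obj M) (b * a) := by
    intro a b
    rw [End.mul_def, End.mul_def]
    exact trq_comm' R hU _ _
  have h8 : (2 : K) • R.H.map (r ≫ i) = 𝟙 _ + R.par (π.obj M) := by
    have e1 : R.par (π.obj M) = R.H.map (r ≫ i) - R.H.map (r' ≫ i') := by
      calc R.par (π.obj M) = R.H.map (r ≫ i + r' ≫ i') ≫ R.par (π.obj M) := by rw [h5]; simp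
        _ = _ := by rw [Functor.map_add, Preadditive.add_comp, h6, h7, sub_eq_add_neg]
    have e2 : 𝟙 (R.H.obj (π.obj M)) = R.H.map (r ≫ i) + R.H.map (r' ≫ i') := by
      rw [← Functor.map_add, h5, CategoryTheory.Functor.map_id]
    rw [e1, e2, two_smul]
    abel
  rw [h2] at h6 h8
  obtain ⟨q, hq0, hq⟩ := hA.exists_zero R hU h8 h6
  obtain ⟨g, hg⟩ := h0 q hq0
  -- the part of degree zero is idempotent modulo nilpotents
  have h9 : InRad (trq hU (π.obj M)) (en q * en q - en q) := by
    set P := en p with hP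
    set z := P - en q with hz
    have hPP : P * P = P := hpp
    have e1 : en q = P - z := by rw [hz]; abel
    have e2 : en q * en q - en q = z - P * z - z * P + z * z := by
      rw [e1]
      have : (P - z) * (P - z) = P * P - P * z - z * P + z * z := by noncomm_ring
      rw [this, hPP]
      abel
    rw [e2, sub_eq_add_neg, sub_eq_add_neg]
    exact ((hq.add (hq.mul_left hsym P).neg).add (hq.mul_right P).neg).add (hq.mul_right z)
  have h10 : IsNilpotent (en g * en g - en g) := by
    obtain ⟨N, hN⟩ := hnil _ h9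
    refine ⟨N, ?_⟩
    have e1 : ∀ (x : End M) (k : ℕ), en (π.map ((x ^ k : End M) : M ⟶ M)) =
        en (π.map (x : M ⟶ M)) ^ k := by
      intro x k
      induction k with
      | zero =>
        rw [pow_zero, pow_zero]
        exact π.map_id M
      | succ k ih =>
        rw [pow_succ, pow_succ, ← ih, End.mul_def, End.mul_def]
        exact π.map_comp _ _
    have e2 : en (π.map ((en g * en g - en g : End M) : M ⟶ M)) = en q * en q - en q := by
      change π.map (g ≫ g - g) = q ≫ q - q
      rw [Functor.map_sub, π.map_comp, hg]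
    have e3 := e1 (en g * en g - en g) N
    rw [e2, hN] at e3
    exact π.map_injective (e3.trans (π.map_zero M M).symm)
  obtain ⟨e', c, he', hec⟩ := exists_lift h10
  have h11 : InRad (trq hU (π.obj M)) (en p - en (π.map (e' : M ⟶ M))) := by
    have e1 : en (π.map (e' : M ⟶ M)) - en q = (en q * en q - en q) * en (π.map (c : M ⟶ M)) := by
      have e2 : (show M ⟶ M from e') - g = (show M ⟶ M from c) ≫ (g ≫ g - g) := hec
      have e3 := congrArg (fun z : M ⟶ M => π.map z) e2
      beta_reduce at e3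
      rw [Functor.map_sub, Functor.map_comp, Functor.map_sub, Functor.map_comp, hg] at e3
      exact e3
    have e4 : en p - en (π.map (e' : M ⟶ M)) = (en p - en q) -
        (en q * en q - en q) * en (π.map (c : M ⟶ M)) := by
      rw [← e1]
      abel
    rw [e4]
    exact hq.sub (h9.mul_right _)
  have he'' : π.map (e' : M ⟶ M) ≫ π.map (e' : M ⟶ M) = π.map (e' : M ⟶ M) := by
    rw [← π.map_comp]
    exact congrArg (fun z : M ⟶ M => π.map z) he'
  -- the isomorphism
  obtain ⟨u, hu⟩ : ∃ u : π.obj M ≅ π.obj M, u.hom ≫ p = π.map (e' : M ⟶ M) ≫ u.hom := by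
    set P := en p with hP
    set e := en (π.map (e' : M ⟶ M)) with he
    have hPP : P * P = P := hpp
    have hee : e * e = e := he''
    set z := P - e with hz
    have hPe : P = e + z := by rw [hz]; abel
    have k1 : InRad (trq hU (π.obj M)) (P * e + (1 - P) * (1 - e) - 1) := by
      have k2 : P * e + (1 - P) * (1 - e) - 1 = z * e + z * e - z := by
        have k3 : P * e + (1 - P) * (1 - e) - 1 = P * e + P * e - P - e := by noncomm_ring
        have k4 : P * e = e + z * e := by
          rw [hPe, add_mul, hee]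
        rw [k3, k4, hPe]
        abel
      rw [k2]
      exact ((h11.mul_right e).add (h11.mul_right e)).sub h11
    have k5 : IsUnit (P * e + (1 - P) * (1 - e)) := by
      have k6 := (hnil _ k1).isUnit_add_one
      rwa [sub_add_cancel] at k6
    obtain ⟨U, hU'⟩ := k5
    have k7 : P * (P * e + (1 - P) * (1 - e)) = (P * e + (1 - P) * (1 - e)) * e := by
      have k8 : P * (P * e + (1 - P) * (1 - e)) = (P * P) * e + (P - P * P) * (1 - e) := by
        noncomm_ring
      have k9 : (P * e + (1 - P) * (1 - e)) * e = P * (e * e) + (1 - P) * (e - e * e) := by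
        noncomm_ring
      rw [k8, k9, hPP, hee]
      simp
    refine ⟨⟨(P * e + (1 - P) * (1 - e) : End (π.obj M)), ((U⁻¹ : (End (π.obj M))ˣ) : End (π.obj M)),
      ?_, ?_⟩, k7⟩
    · have k10 := U.inv_mul
      rw [hU', End.mul_def] at k10
      exact k10
    · have k10 := U.mul_inv
      rw [hU', End.mul_def] at k10
      exact k10
  refine ⟨e', u, he', ⟨n, ?_⟩, ⟨m, ?_⟩, hu⟩
  · apply powerVanishes_of_map π (by norm_num)
    exact powerVanishes_of_inRad R hU (by norm_num) hnil hpp he'' h11 hn'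
  · apply powerVanishes_of_map π (by norm_num)
    rw [Functor.map_sub, CategoryTheory.Functor.map_id]
    have e3 : (𝟙 (π.obj M) - π.map (e' : M ⟶ M)) ≫ (𝟙 (π.obj M) - π.map (e' : M ⟶ M)) =
        𝟙 (π.obj M) - π.map (e' : M ⟶ M) := by
      rw [Preadditive.sub_comp, Preadditive.comp_sub, Preadditive.comp_sub, he'']
      simp
    refine powerVanishes_of_inRad R hU (by norm_num) hnil hpp' e3 ?_ hm'
    have e4 : en (𝟙 (π.obj M) - p) - en (𝟙 (π.obj M) - π.map (e' : M ⟶ M)) =
        -(en p - en (π.map (e' : M ⟶ M))) := by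
      change (𝟙 (π.obj M) - p) - (𝟙 (π.obj M) - π.map (e' : M ⟶ M)) =
        -(p - π.map (e' : M ⟶ M))
      abel
    rw [e4]
    exact h11.neg

include R in
/-- The descent theorem. -/
theorem isKimuraFinite_of_map (hU : UnitQ D) {M : C}
    {A : ℤ → Submodule ℚ (π.obj M ⟶ π.obj M)} (hA : IsGrading A)
    (h0 : ∀ f ∈ A 0, ∃ g : M ⟶ M, π.map g = f) (h : IsKimuraFinite (π.obj M)) :
    IsKimuraFinite M := by
  obtain ⟨p, hp, hev, hod⟩ := h
  obtain ⟨e, -, he, hev', hod', -⟩ := exists_descent R π hU hA h0 p hp hev hod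
  exact ⟨e, he, hev', hod'⟩

/-- The realisation of the unit object is not zero. -/
lemma unit_ne (R : SuperRealisation D K) : ¬ IsZero (R.H.obj (𝟙_ D)) := by
  intro h
  have h1 : Functor.LaxMonoidal.ε R.H ≫ Functor.OplaxMonoidal.η R.H = 𝟙 _ :=
    Functor.Monoidal.ε_η R.H
  rw [h.eq_of_tgt (Functor.LaxMonoidal.ε R.H) 0, zero_comp] at h1
  have h2 : (1 : K) = 0 := (LinearMap.congr_fun (congrArg ModuleCat.Hom.hom h1) (1 : K)).symm
  exact one_ne_zero h2

end

end Pool.Agent.R580.Orb
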