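import Pool.Agent.R905.Div

/-!
# Symmetrizers and antisymmetrizers under symmetric monoidal functors
-/

set_option autoImplicit false
set_option linter.unusedSectionVars false
set_option linter.unusedSimpArgs false

open CategoryTheory Limits MonoidalCategory
open Pool.Agent.Y112.KD Pool.Agent.R905

namespace Pool.Agent.R580.Orb

universe v₁ u₁ v₂ u₂

open Functor.LaxMonoidal Functor.OplaxMonoidal

section

variable {C : Type u₁} [Category.{v₁} C] [MonoidalCategory C] [SymmetricCategory C]
  {D : Type u₂} [Category.{v₂} D] [MonoidalCategory D] [SymmetricCategory D]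
  (π : C ⥤ D) [π.Braided]

/-- The comparison of the tensor powers of the image with the image of the tensor powers. -/
noncomputable def J (M : C) : ∀ n : ℕ, (tp (π.obj M) n ⟶ π.obj (tp M n))
  | 0 => ε π
  | n + 1 => (J M n ▷ π.obj M) ≫ μ π (tp M n) M

lemma J_succ (M : C) (n : ℕ) : J π M (n + 1) = (J π M n ▷ π.obj M) ≫ μ π (tp M n) M := rfl

/-- The inverse of the comparison. -/
noncomputable def J' (M : C) : ∀ n : ℕ, (π.obj (tp M n) ⟶ tp (π.obj M) n)
  | 0 => η π
  | n + 1 => δ π (tp M n) M ≫ (J' M n ▷ π.obj M)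

lemma J'_succ (M : C) (n : ℕ) : J' π M (n + 1) = δ π (tp M n) M ≫ (J' π M n ▷ π.obj M) := rfl

lemma J_J' (M : C) (n : ℕ) : J π M n ≫ J' π M n = 𝟙 _ := by
  induction n with
  | zero => exact Functor.Monoidal.ε_η π
  | succ n ih =>
    rw [J_succ, J'_succ, Category.assoc, Functor.Monoidal.μ_δ_assoc, ← comp_whiskerRight, ih,
      id_whiskerRight]

lemma J'_J (M : C) (n : ℕ) : J' π M n ≫ J π M n = 𝟙 _ := by
  induction n with
  | zero => exact Functor.Monoidal.η_ε π
  | succ n ih =>
    rw [J_succ, J'_succ, Category.assoc, ← comp_whiskerRight_assoc, ih, id_whiskerRight,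
      Category.id_comp, Functor.Monoidal.δ_μ]

lemma J_tpm {M N : C} (f : M ⟶ N) (n : ℕ) : J π M n ≫ π.map (tpm f n) = tpm (π.map f) n ≫ J π N n := by
  induction n with
  | zero =>
    have e1 : tpm f 0 = 𝟙 _ := rfl
    have e2 : tpm (π.map f) 0 = 𝟙 _ := rfl
    rw [e1, e2, CategoryTheory.Functor.map_id, Category.comp_id, Category.id_comp]
    rfl
  | succ n ih =>
    have e1 : tpm f (n + 1) = tpm f n ⊗ₘ f := rfl
    have e2 : tpm (π.map f) (n + 1) = tpm (π.map f) n ⊗ₘ π.map f := rfl
    rw [J_succ, J_succ, e1, e2, Category.assoc, ← μ_natural, ← tensorHom_id, ← tensorHom_id,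
      tensorHom_comp_tensorHom_assoc, tensorHom_comp_tensorHom_assoc, ih, Category.id_comp,
      Category.comp_id]

lemma mu_sw (Q X : C) : (μ π Q X ▷ π.obj X) ≫ μ π (Q ⊗ X) X ≫ π.map (sw Q X) =
    sw (π.obj Q) (π.obj X) ≫ (μ π Q X ▷ π.obj X) ≫ μ π (Q ⊗ X) X := by
  have h1 := Functor.LaxMonoidal.associativity (F := π) Q X X
  have h2 : (μ π Q X ▷ π.obj X) ≫ μ π (Q ⊗ X) X =
      (α_ _ _ _).hom ≫ (π.obj Q ◁ μ π X X) ≫ μ π Q (X ⊗ X) ≫ π.map (α_ Q X X).inv := by
    rw [← reassoc_of% h1, ← π.map_comp]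
    simp
  have h3 : π.obj Q ◁ μ π X X ≫ μ π Q (X ⊗ X) ≫ π.map (Q ◁ (β_ X X).hom) =
      π.obj Q ◁ (β_ (π.obj X) (π.obj X)).hom ≫ π.obj Q ◁ μ π X X ≫ μ π Q (X ⊗ X) := by
    rw [← μ_natural_right, ← MonoidalCategory.whiskerLeft_comp_assoc,
      Functor.LaxBraided.braided, MonoidalCategory.whiskerLeft_comp_assoc]
  rw [sw, sw, Functor.map_comp, Functor.map_comp, ← Category.assoc (μ π Q X ▷ π.obj X), h2]
  simp only [Category.assoc]
  have h4 : π.map (α_ Q X X).inv ≫ π.map (α_ Q X X).hom = 𝟙 _ := by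
    rw [← π.map_comp, Iso.inv_hom_id, CategoryTheory.Functor.map_id]
  rw [reassoc_of% h4, reassoc_of% h3]
  simp

variable [Preadditive C] [Linear ℚ C] [MonoidalPreadditive C] [MonoidalLinear ℚ C]
  [Preadditive D] [Linear ℚ D] [MonoidalPreadditive D] [MonoidalLinear ℚ D]
  [π.Additive] [π.Linear ℚ]

lemma J_asym (η : ℚ) (M : C) (n : ℕ) :
    J π M n ≫ π.map (asym η M n) = asym η (π.obj M) n ≫ J π M n := by
  induction n with
  | zero =>
    rw [asym_zero, asym_zero, CategoryTheory.Functor.map_id, Category.comp_id, Category.id_comp]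
  | succ n ih =>
    rcases n with - | n
    · rw [asym_one, asym_one, CategoryTheory.Functor.map_id, Category.comp_id, Category.id_comp]
    · have h1 : J π M (n + 2) ≫ π.map (asym η M (n + 1) ▷ M) =
          (asym η (π.obj M) (n + 1) ▷ π.obj M) ≫ J π M (n + 2) := by
        rw [J_succ π M (n + 1), Category.assoc, ← μ_natural_left, ← comp_whiskerRight_assoc, ih,
          comp_whiskerRight_assoc]
      have h2 : J π M (n + 2) ≫ π.map (sw (tp M n) M) =
          sw (tp (π.obj M) n) (π.obj M) ≫ J π M (n + 2) := by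
        have h3 := sw_nat_left (X := π.obj M) (J π M n)
        rw [J_succ π M (n + 1), J_succ π M n, comp_whiskerRight, Category.assoc, Category.assoc,
          mu_sw, ← Category.assoc, h3]
        simp only [Category.assoc]
      rw [asym_succ, asym_succ, Functor.map_smul, Functor.map_add, Functor.map_smul,
        Functor.map_comp, Functor.map_comp, Linear.comp_smul, Preadditive.comp_add,
        Linear.comp_smul, h1, reassoc_of% h1, reassoc_of% h2, h1, Linear.smul_comp,
        Preadditive.add_comp, Linear.smul_comp]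
      simp only [Category.assoc]

/-- The vanishing of powers in terms of the (anti)symmetrizer. -/
lemma powerVanishes_asym {η : ℚ} (hη : η * η = 1) {M : C} (e : M ⟶ M) (n : ℕ) :
    PowerVanishes η e n ↔ tpm e n ≫ asym η M n = 0 := by
  constructor
  · intro h
    exact h _ _ (fun s hs => (swap_asym hη M hs).1)
  · intro h Z g hg
    rw [← asym_comp hη g hg, ← Category.assoc, h, zero_comp]

lemma powerVanishes_map {η : ℚ} (hη : η * η = 1) {M : C} {e : M ⟶ M} {n : ℕ}
    (h : PowerVanishes η e n) : PowerVanishes η (π.map e) n := by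
  rw [powerVanishes_asym hη] at h ⊢
  have h1 : J π M n ≫ π.map (tpm e n ≫ asym η M n) =
      (tpm (π.map e) n ≫ asym η (π.obj M) n) ≫ J π M n := by
    rw [Functor.map_comp, ← Category.assoc, J_tpm, Category.assoc, J_asym, Category.assoc]
  rw [h, Functor.map_zero, comp_zero] at h1
  have h2 := congrArg (fun z => z ≫ J' π M n) h1
  simp only [zero_comp, Category.assoc, J_J', Category.comp_id] at h2
  exact h2.symm

lemma powerVanishes_of_map [π.Faithful] {η : ℚ} (hη : η * η = 1) {M : C} {e : M ⟶ M} {n : ℕ}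
    (h : PowerVanishes η (π.map e) n) : PowerVanishes η e n := by
  rw [powerVanishes_asym hη] at h ⊢
  have h1 : J π M n ≫ π.map (tpm e n ≫ asym η M n) =
      (tpm (π.map e) n ≫ asym η (π.obj M) n) ≫ J π M n := by
    rw [Functor.map_comp, ← Category.assoc, J_tpm, Category.assoc, J_asym, Category.assoc]
  rw [h, zero_comp] at h1
  have h2 := congrArg (fun z => J' π M n ≫ z) h1
  simp only [comp_zero, reassoc_of% (J'_J π M n)] at h2
  exact π.map_injective (by rw [h2, Functor.map_zero])

lemma isKimuraFinite_map {M : C} (h : IsKimuraFinite M) : IsKimuraFinite (π.obj M) := by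
  obtain ⟨e, he, ⟨n, hn⟩, m, hm⟩ := h
  refine ⟨π.map e, by rw [← π.map_comp, he], ⟨n, powerVanishes_map π (by norm_num) hn⟩, m, ?_⟩
  have h1 := powerVanishes_map π (by norm_num) hm
  rwa [Functor.map_sub, CategoryTheory.Functor.map_id] at h1

end

end Pool.Agent.R580.Orb
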