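import Pool.Agent.R580.Orb.Func

/-!
# Kimura finite-dimensionality descends from noncommutative to commutative motives
-/

set_option autoImplicit false
set_option linter.unusedSectionVars false
set_option linter.unusedSimpArgs false

open CategoryTheory Limits MonoidalCategory
open Pool.Agent.Y112.SR Pool.Agent.Y112.KD Pool.Agent.R905
open Pool.Agent.Y116.MT (tr)
open Pool.Agent.TH829.Kim (InRad Killed isNilpotent_of_inRad exists_lift)

namespace Pool.Agent.R580.Orb

universe v₁ u₁ v₂ u₂ w

/-- The submodules `A i` of the endomorphisms of `X` (the endomorphisms of degree `i`) generate all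
endomorphisms, the degree of a composition is the sum of the degrees, the degrees are bounded and
the trace of an endomorphism of non zero degree is zero. -/
structure IsGrading {D : Type u₂} [Category.{v₂} D] [Preadditive D] [Linear ℚ D]
    [MonoidalCategory D] [SymmetricCategory D] [RightRigidCategory D] {X : D}
    (A : ℤ → Submodule ℚ (X ⟶ X)) : Prop where
  comp : ∀ (i j : ℤ) (f g : X ⟶ X), f ∈ A i → g ∈ A j → f ≫ g ∈ A (i + j)
  span : ⨆ i, A i = ⊤
  bounded : ∃ b : ℤ, ∀ i, b < |i| → A i = ⊥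
  trace : ∀ i, i ≠ 0 → ∀ f ∈ A i, tr f = 0

section

variable {D : Type u₂} [Category.{v₂} D] [Preadditive D] [Linear ℚ D] [MonoidalCategory D]
  [MonoidalPreadditive D] [MonoidalLinear ℚ D] [SymmetricCategory D]
  [RightRigidCategory D] {K : Type w} [Field K] (R : SuperRealisation D K)

/-- Endomorphisms of non zero degree are nilpotent. -/
lemma IsGrading.nilpotent {X : D} {A : ℤ → Submodule ℚ (X ⟶ X)} (hA : IsGrading A) {j : ℤ}
    (hj : j ≠ 0) {f : X ⟶ X} (hf : f ∈ A j) : IsNilpotent (en f) := by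
  obtain ⟨b, hb⟩ := hA.bounded
  have h1 : ∀ k : ℕ, (((en f) ^ (k + 1) : End X) : X ⟶ X) ∈ A (((k + 1 : ℕ) : ℤ) * j) := by
    intro k
    induction k with
    | zero =>
      rw [zero_add, pow_one, Nat.cast_one, one_mul]
      exact hf
    | succ k ih =>
      rw [pow_succ', End.mul_def]
      have h2 := hA.comp _ _ _ _ ih hf
      have h3 : ((k + 1 : ℕ) : ℤ) * j + j = ((k + 1 + 1 : ℕ) : ℤ) * j := by
        push_cast
        ring
      rw [h3] at h2
      exact h2
  refine ⟨b.toNat + 1, ?_⟩
  have h2 := h1 b.toNat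
  have h3 : A (((b.toNat + 1 : ℕ) : ℤ) * j) = ⊥ := by
    apply hb
    rw [abs_mul]
    have h4 : (1 : ℤ) ≤ |j| := Int.one_le_abs hj
    have h5 : b < ((b.toNat + 1 : ℕ) : ℤ) := by
      push_cast
      have := Int.self_le_toNat b
      omega
    have h6 : |((b.toNat + 1 : ℕ) : ℤ)| = ((b.toNat + 1 : ℕ) : ℤ) := abs_of_nonneg (by positivity)
    rw [h6]
    nlinarith
  rw [h3] at h2
  exact (Submodule.mem_bot ℚ).1 h2

/-- The trace of the composition of the even projector with an endomorphism of non zero degree. -/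
lemma IsGrading.trace_proj (hU : UnitQ D) {X : D} {A : ℤ → Submodule ℚ (X ⟶ X)}
    (hA : IsGrading A) {j : ℤ} (hj : j ≠ 0) {f : X ⟶ X} (hf : f ∈ A j) {p : X ⟶ X}
    (hp : (2 : K) • R.H.map p = 𝟙 _ + R.par X) (hp' : R.H.map p ≫ R.par X = R.H.map p) :
    trq hU X (f ≫ p : X ⟶ X) = 0 := by
  have hc := R_charZero R
  have h0 := R.finite X
  have h1 := real_tr R hU (f ≫ p)
  have h2 := real_tr R hU f
  have h3 : trq hU X (f : X ⟶ X) = 0 := by
    apply hU.inj
    rw [← trq_spec hU, hA.trace j hj f hf, zero_smul]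
  rw [h3, Rat.cast_zero] at h2
  have h4 : LinearMap.trace K (R.H.obj X) (R.H.map f).hom = 0 := by
    apply IsNilpotent.eq_zero
    apply LinearMap.isNilpotent_trace_of_isNilpotent
    obtain ⟨n, hn⟩ := hA.nilpotent hj hf
    refine ⟨n, ?_⟩
    have h5 : ∀ n : ℕ, ((R.H.map f).hom ^ n : Module.End K (R.H.obj X)) =
        (R.H.map (((en f) ^ n : End X) : X ⟶ X)).hom := by
      intro n
      induction n with
      | zero =>
        rw [pow_zero, pow_zero]
        change _ = (R.H.map (𝟙 X)).hom
        rw [CategoryTheory.Functor.map_id]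
        rfl
      | succ n ih =>
        rw [pow_succ, ih, pow_succ, End.mul_def, Functor.map_comp, ModuleCat.hom_comp]
        rfl
    rw [h5, hn]
    change (R.H.map (0 : X ⟶ X)).hom = 0
    rw [Functor.map_zero]
    rfl
  have h5 : (2 : K) * ((trq hU X (f ≫ p : X ⟶ X) : ℚ) : K) = 0 := by
    rw [h1, Functor.map_comp, Category.assoc, hp', ← smul_eq_mul, ← map_smul]
    have h6 : (2 : K) • (R.H.map f ≫ R.H.map p).hom = (R.H.map f).hom + (R.H.map f ≫ R.par X).hom := by
      rw [← ModuleCat.hom_smul, ← Linear.comp_smul, hp, Preadditive.comp_add, Category.comp_id,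
        ModuleCat.hom_add]
    rw [h6, map_add, h4, ← h2, add_zero]
  have h6 := (mul_eq_zero.1 h5).resolve_left two_ne_zero
  exact_mod_cast h6

variable [IsIdempotentComplete D]

/-- The even projector differs from its part of degree zero by an endomorphism in the radical. -/
lemma IsGrading.exists_zero (hU : UnitQ D) {X : D} {A : ℤ → Submodule ℚ (X ⟶ X)}
    (hA : IsGrading A) {p : X ⟶ X}
    (hp : (2 : K) • R.H.map p = 𝟙 _ + R.par X) (hp' : R.H.map p ≫ R.par X = R.H.map p) :
    ∃ q ∈ A 0, InRad (trq hU X) (en p - en q) := by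
  have hmem : p ∈ ⨆ i, A i := by rw [hA.span]; trivial
  obtain ⟨c, hc, hcs⟩ := (Submodule.mem_iSup_iff_exists_finsupp A p).1 hmem
  have htr0 : ∀ i, i ≠ 0 → ∀ f ∈ A i, trq hU X (f : X ⟶ X) = 0 := by
    intro i hi f hf
    apply hU.inj
    rw [← trq_spec hU, hA.trace i hi f hf, zero_smul]
  have hrad : ∀ i, i ≠ 0 → InRad (trq hU X) (en (c i)) := by
    intro i hi γ
    have hγ : (γ : X ⟶ X) ∈ ⨆ i, A i := by rw [hA.span]; trivial
    refine Submodule.iSup_induction A (motive := fun γ : X ⟶ X => trq hU X (en (c i) * en γ) = 0)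
      hγ ?_ ?_ ?_
    · intro j g hg
      rw [End.mul_def]
      by_cases hij : j + i = 0
      · have hj : j ≠ 0 := by rintro rfl; omega
        have h1 : trq hU X (g ≫ p : X ⟶ X) = 0 := hA.trace_proj R hU hj hg hp hp'
        have h2 : g ≫ p = ∑ l ∈ c.support, g ≫ c l := by
          rw [← hcs, Finsupp.sum, Preadditive.comp_sum]
        by_cases his : i ∈ c.support
        · have h3 : trq hU X (g ≫ p : X ⟶ X) = ∑ l ∈ c.support, trq hU X (g ≫ c l : X ⟶ X) := by
            rw [h2]
            exact map_sum (trq hU X) _ _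
          rw [Finset.sum_eq_single_of_mem i his (fun l _ hl => htr0 (j + l) (by omega) _
            (hA.comp j l g (c l) hg (hc l)))] at h3
          exact h3.symm.trans h1
        · have h3 : c i = 0 := by simpa using his
          change trq hU X (g ≫ c i : X ⟶ X) = 0
          rw [h3, comp_zero]
          exact map_zero _
      · exact htr0 (j + i) hij _ (hA.comp j i g (c i) hg (hc i))
    · change trq hU X (en (c i) * 0) = 0
      rw [mul_zero, map_zero]
    · intro x y hx hy
      change trq hU X (en (c i) * (en x + en y)) = 0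
      rw [mul_add, map_add, hx, hy, add_zero]
  refine ⟨c 0, hc 0, ?_⟩
  have h1 : en p - en (c 0) = ∑ l ∈ c.support.erase 0, en (c l) := by
    have h2 : en p = ∑ l ∈ c.support, en (c l) := hcs.symm
    by_cases h0 : (0 : ℤ) ∈ c.support
    · rw [h2, ← Finset.add_sum_erase _ _ h0]
      abel
    · have h3 : c 0 = 0 := by simpa using h0
      have h4 : en (c 0) = 0 := h3
      rw [h2, h4, sub_zero, Finset.erase_eq_of_notMem h0]
  rw [h1]
  intro γ
  rw [Finset.sum_mul, map_sum]
  apply Finset.sum_eq_zero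
  intro l hl
  exact hrad l (Finset.ne_of_mem_erase hl) γ

include R in
/-- Idempotents which agree with an idempotent with vanishing powers modulo the radical. -/
lemma powerVanishes_of_inRad (hU : UnitQ D) {X : D} {η : ℚ} (hη : η * η = 1) {p e : X ⟶ X}
    (hnil : ∀ x : End X, InRad (trq hU X) x → IsNilpotent x)
    (hp : p ≫ p = p) (he : e ≫ e = e) (hpe : InRad (trq hU X) (en p - en e)) {n : ℕ}
    (hn : PowerVanishes η p n) : PowerVanishes η e n := by
  obtain ⟨E, i, r, h1, h2⟩ := IsIdempotentComplete.idempotents_split X p hp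
  obtain ⟨P, j, s, h3, h4⟩ := IsIdempotentComplete.idempotents_split X e he
  have hsym : ∀ a b : End X, trq hU X (a * b) = trq hU X (b * a) := by
    intro a b
    rw [End.mul_def, End.mul_def]
    exact trq_comm' R hU _ _
  rw [powerVanishes_iff hη i r h1 h2] at hn
  rw [powerVanishes_iff hη j s h3 h4]
  have h5 : IsNilpotent (en e * (en p - en e) * en e) :=
    hnil _ ((hpe.mul_left hsym (en e)).mul_right (en e))
  have h6 : j ≫ e = j := by rw [← h4, reassoc_of% h3]
  have h7 : e ≫ s = s := by rw [← h4, Category.assoc, h3, Category.comp_id]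
  -- the comparison
  have h8 : IsNilpotent (en (j ≫ (p - e) ≫ s)) := by
    obtain ⟨N, hN⟩ := h5
    have key : ∀ n : ℕ, (en e * (en p - en e) * en e) ^ (n + 1) =
        en (s ≫ (((en (j ≫ (p - e) ≫ s)) ^ (n + 1) : End P) : P ⟶ P) ≫ j) := by
      have h9 : en e * (en p - en e) * en e = en (s ≫ (j ≫ (p - e) ≫ s) ≫ j) := by
        rw [End.mul_def, End.mul_def]
        change e ≫ (p - e) ≫ e = _
        rw [en, ← h4]
        simp only [Category.assoc]
      intro n
      induction n with
      | zero =>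
        rw [zero_add, pow_one, pow_one, h9]
        rfl
      | succ n ih =>
        rw [pow_succ, ih, pow_succ (en (j ≫ (p - e) ≫ s)) (n + 1), h9, End.mul_def, End.mul_def]
        simp only [en, Category.assoc]
        rw [reassoc_of% h3]
    refine ⟨N + 1, ?_⟩
    have h1' := key N
    rw [pow_succ, hN, zero_mul] at h1'
    have h2' : j ≫ (s ≫ (((en (j ≫ (p - e) ≫ s)) ^ (N + 1) : End P) : P ⟶ P) ≫ j) ≫ s =
        j ≫ (0 : X ⟶ X) ≫ s := congrArg (fun z : X ⟶ X => j ≫ z ≫ s) h1'.symm
    simp only [Category.assoc, reassoc_of% h3, h3, Category.comp_id, zero_comp, comp_zero] at h2'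
    exact h2'
  have h9 : IsUnit (en (j ≫ p ≫ s)) := by
    have h10 := h8.isUnit_add_one
    have h11 : en (j ≫ (p - e) ≫ s) + 1 = en (j ≫ p ≫ s) := by
      change j ≫ (p - e) ≫ s + 𝟙 P = j ≫ p ≫ s
      rw [Preadditive.sub_comp, Preadditive.comp_sub, h7, h3]
      abel
    rwa [h11] at h10
  obtain ⟨U, hU'⟩ := h9
  have h10 : (j ≫ p ≫ s) ≫ (((U⁻¹ : (End P)ˣ) : End P) : P ⟶ P) = 𝟙 P := by
    have h11 := U.inv_mul
    rw [hU', End.mul_def] at h11
    exact h11
  refine kills_retract (j ≫ r) (i ≫ s ≫ (((U⁻¹ : (End P)ˣ) : End P) : P ⟶ P)) ?_ hn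
  rw [← h10, ← h2]
  simp only [Category.assoc]

end

end Pool.Agent.R580.Orb
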